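import Pool.Agent.N928.FG.Stm

/-!
# FG/FIN (helper373, project FG of helper928): no power law
-/

set_option autoImplicit false

namespace Pool.Agent.N373.FG

open Pool.Agent.N928.FG Filter Topology

/-- powers against exponentials -/
lemma pow_exp {x e c : ℝ} (hx0 : 0 ≤ x) (hx1 : x < 1) (hc : 0 < c) :
    ∀ᶠ n : ℕ in atTop, (n : ℝ) ^ e * x ^ n ≤ c := by
  obtain ⟨k, hk⟩ := exists_nat_ge e
  have h1 := tendsto_pow_const_mul_const_pow_of_abs_lt_one k (r := x) (by rwa [abs_of_nonneg hx0])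
  filter_upwards [h1.eventually_le_const hc, eventually_ge_atTop 1] with n hn hn1
  refine le_trans (mul_le_mul_of_nonneg_right ?_ (pow_nonneg hx0 n)) hn
  rw [← Real.rpow_natCast]
  exact Real.rpow_le_rpow_of_exponent_le (by exact_mod_cast hn1) hk

theorem t_FIN (hL : S_ABL) (hU : S_ABU) : S_FIN := by
  intro q W Z hq hlc hZm hZc hWc hZ0 hS hWl hZl ρ c d hρ hc heq
  obtain ⟨c₁, C₁, hc₁, hC₁, hW⟩ := hWl
  obtain ⟨c₂, C₂, u₀, hc₂, hC₂, hu₀, hu₀', hZ⟩ := hZl
  obtain ⟨R, hR⟩ : ∃ R, R = Z 1 := ⟨_, rfl⟩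
  have hR0 : 0 < R := by
    have := hZm (Set.left_mem_Icc.2 zero_le_one) (Set.right_mem_Icc.2 zero_le_one) zero_lt_one
    rw [hZ0] at this
    rwa [hR]
  have hmono : ∀ u v : ℝ, 0 ≤ u → u ≤ v → v ≤ 1 → Z u ≤ Z v := fun u v h1 h2 h3 =>
    hZm.monotoneOn ⟨h1, h2.trans h3⟩ ⟨h1.trans h2, h3⟩ h2
  have hlt : ∀ u : ℝ, 0 ≤ u → u < 1 → Z u < R := fun u h1 h2 => by
    rw [hR]
    exact hZm ⟨h1, h2.le⟩ (Set.right_mem_Icc.2 zero_le_one) h2
  have hex : ∀ z, 0 < z → z < R → ∃ u, 0 < u ∧ u < 1 ∧ Z u = z := by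
    intro z h0 h1
    obtain ⟨u, hu, hz⟩ := intermediate_value_Icc zero_le_one hZc
      (show z ∈ Set.Icc (Z 0) (Z 1) from ⟨by rw [hZ0]; exact h0.le, by rw [← hR]; exact h1.le⟩)
    refine ⟨u, lt_of_le_of_ne hu.1 ?_, lt_of_le_of_ne hu.2 ?_, hz⟩
    · rintro rfl
      rw [hZ0] at hz
      exact h0.ne hz
    · rintro rfl
      rw [← hR] at hz
      exact h1.ne' hz
  -- summability
  have hsum0 : ∀ z, 0 < z → z < R → Summable (fun n : ℕ => q n * z ^ n) := by
    intro z h0 h1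
    obtain ⟨u, g1, g2, g3⟩ := hex z h0 h1
    rw [← g3]
    exact (hS u g1 g2).1
  have hsum : ∀ z, 0 ≤ z → z < R → Summable (fun n : ℕ => q n * z ^ n) := by
    intro z h0 h1
    refine Summable.of_nonneg_of_le (fun n => mul_nonneg (hq n) (pow_nonneg h0 n)) (fun n => ?_)
      (hsum0 (max z (R / 2)) (lt_max_of_lt_right (by linarith)) (max_lt h1 (by linarith)))
    exact mul_le_mul_of_nonneg_left (pow_le_pow_left₀ h0 (le_max_left _ _) n) (hq n)
  -- the two bounds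
  have hf0 : ∀ n : ℕ, 0 ≤ c * (n : ℝ) ^ (-d) * ρ ^ (2 * n) := fun n => by positivity
  have hlit := heq.isLittleO.bound (show (0 : ℝ) < 1 / 2 by norm_num)
  have hup : ∀ᶠ n : ℕ in atTop, q (2 * n) ≤ 2 * (c * (n : ℝ) ^ (-d) * ρ ^ (2 * n)) := by
    filter_upwards [hlit] with n hn
    rw [Pi.sub_apply, Real.norm_eq_abs, Real.norm_of_nonneg (hf0 n)] at hn
    have := (abs_le.1 hn).2
    linarith [hf0 n]
  have hlow : ∀ᶠ n : ℕ in atTop, 1 / 2 * (c * (n : ℝ) ^ (-d) * ρ ^ (2 * n)) ≤ q (2 * n) := by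
    filter_upwards [hlit] with n hn
    rw [Pi.sub_apply, Real.norm_eq_abs, Real.norm_of_nonneg (hf0 n)] at hn
    have := (abs_le.1 hn).1
    linarith [hf0 n]
  -- case A
  have caseA : ∀ (C d' : ℝ), 0 < C → 3 / 2 < d' →
      (∀ᶠ n : ℕ in atTop, q (2 * n) * R ^ (2 * n) ≤ C * (n : ℝ) ^ (-d')) → False := by
    intro C d' hC hd' hev
    obtain ⟨ε, C', hε, hC', z₀, hz₀, hz₀R, hb⟩ := hU q R C d' hq hR0 hC hd' hlc hev
    obtain ⟨u₁, hu₁, hu₁', hZu₁⟩ := hex z₀ hz₀ hz₀R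
    obtain ⟨a, ha⟩ : ∃ a : ℝ, a = 1 / 2 + ε := ⟨_, rfl⟩
    have ha0 : 0 < a := by rw [ha]; linarith
    simp only [← ha] at hb
    obtain ⟨η, hη⟩ : ∃ η : ℝ, η = ε / a := ⟨_, rfl⟩
    have hη0 : 0 < η := by rw [hη]; positivity
    have hηa : η * a = ε := by rw [hη]; field_simp
    have key : ∀ u, u₁ ≤ u → u < 1 → c₁ * (1 - u) ≤ C' * (R - Z u) ^ a := by
      intro u h1 h2
      have hu0 : 0 < u := hu₁.trans_le h1
      refine ((hW u hu0.le h2.le).1).trans ?_
      refine le_of_forall_pos_le_add fun δ hδ => ?_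
      obtain ⟨u', hu'⟩ : ∃ u', u' = max u (1 - δ / C₁) := ⟨_, rfl⟩
      have k1 : u ≤ u' := by rw [hu']; exact le_max_left _ _
      have k2 : u' < 1 := by
        rw [hu']
        have : 0 < δ / C₁ := by positivity
        exact max_lt h2 (by linarith)
      have k3 : 1 - δ / C₁ ≤ u' := by rw [hu']; exact le_max_right _ _
      have k4 : C₁ * (1 - u') ≤ δ := by
        have : C₁ * (1 - u') ≤ C₁ * (δ / C₁) := mul_le_mul_of_nonneg_left (by linarith) hC₁.le
        rwa [mul_div_cancel₀ _ hC₁.ne'] at this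
      have k5 := hb (Z u) (Z u') (by
        rw [← hZu₁]
        exact hmono _ _ hu₁.le h1 h2.le) (hmono _ _ hu0.le k1 k2.le)
        (hlt _ (hu0.le.trans k1) k2)
      rw [(hS u hu0 h2).2, (hS u' (hu0.trans_le k1) k2).2] at k5
      have k6 := (hW u' (hu0.le.trans k1) k2.le).2
      linarith
    obtain ⟨K, hK⟩ : ∃ K : ℝ, K = C' * (C₂ / η) ^ a := ⟨_, rfl⟩
    have hK0 : 0 < K := by rw [hK]; positivity
    have key2 : ∀ h : ℝ, 0 < h → h ≤ 1 - max u₀ u₁ → c₁ ≤ K * h ^ ε := by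
      intro h h0 h1
      obtain ⟨u, hu⟩ : ∃ u, u = 1 - h := ⟨_, rfl⟩
      have hu1 : u₀ ≤ u := by
        have := le_max_left u₀ u₁
        rw [hu]; linarith
      have hu2 : u₁ ≤ u := by
        have := le_max_right u₀ u₁
        rw [hu]; linarith
      have hu3 : u < 1 := by rw [hu]; linarith
      have e1 := key u hu2 hu3
      have e2 := (hZ u hu1 hu3).2
      have e3 : 1 - u = h := by rw [hu]; ring
      rw [e3] at e1 e2
      rw [← hR] at e2
      have e4 : Real.log (1 / h) ≤ (1 / h) ^ η / η := Real.log_le_rpow_div (by positivity) hη0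
      have e5 : R - Z u ≤ (C₂ / η) * h ^ (2 - η) := by
        refine e2.trans ?_
        have e6 : h ^ (2 - η) = h ^ 2 * (1 / h) ^ η := by
          rw [Real.rpow_sub h0, one_div, Real.inv_rpow h0.le, div_eq_mul_inv]
          norm_num
        rw [e6]
        calc C₂ * (h ^ 2 * Real.log (1 / h)) ≤ C₂ * (h ^ 2 * ((1 / h) ^ η / η)) := by
              apply mul_le_mul_of_nonneg_left _ hC₂.le
              exact mul_le_mul_of_nonneg_left e4 (by positivity)
          _ = _ := by ring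
      have e7 : 0 ≤ R - Z u := by
        have := hlt u (hu₁.le.trans hu2) hu3
        linarith
      have e8 : (R - Z u) ^ a ≤ (C₂ / η) ^ a * (h * h ^ ε) := by
        refine (Real.rpow_le_rpow e7 e5 ha0.le).trans (le_of_eq ?_)
        rw [Real.mul_rpow (by positivity) (by positivity), ← Real.rpow_mul h0.le]
        congr 1
        have e9 : (2 - η) * a = 1 + ε := by
          rw [sub_mul, hηa, ha]; ring
        rw [e9, Real.rpow_add h0, Real.rpow_one]
      have e10 : c₁ * h ≤ (K * h ^ ε) * h := by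
        calc c₁ * h ≤ C' * (R - Z u) ^ a := e1
          _ ≤ C' * ((C₂ / η) ^ a * (h * h ^ ε)) := mul_le_mul_of_nonneg_left e8 hC'.le
          _ = (K * h ^ ε) * h := by rw [hK]; ring
      exact le_of_mul_le_mul_right e10 h0
    have hm : 0 < 1 - max u₀ u₁ := by
      have := max_lt hu₀' hu₁'
      linarith
    obtain ⟨x, hx⟩ : ∃ x : ℝ, x = c₁ / (2 * K) := ⟨_, rfl⟩
    have hx0 : 0 < x := by rw [hx]; positivity
    have e11 := key2 (min (1 - max u₀ u₁) (x ^ (1 / ε))) (lt_min hm (by positivity))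
      (min_le_left _ _)
    have e12 : (min (1 - max u₀ u₁) (x ^ (1 / ε))) ^ ε ≤ x := by
      have h3 : (min (1 - max u₀ u₁) (x ^ (1 / ε))) ^ ε ≤ (x ^ (1 / ε)) ^ ε :=
        Real.rpow_le_rpow (le_min hm.le (by positivity)) (min_le_right _ _) hε.le
      rwa [← Real.rpow_mul hx0.le, one_div_mul_cancel hε.ne', Real.rpow_one] at h3
    have e13 : K * x = c₁ / 2 := by rw [hx]; field_simp
    have e14 := mul_le_mul_of_nonneg_left e12 hK0.le
    linarith
  rcases lt_trichotomy (ρ * R) 1 with hρR | hρR | hρR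
  · -- ρ R < 1
    refine caseA 1 2 one_pos (by norm_num) ?_
    have hx0 : 0 ≤ (ρ * R) ^ 2 := sq_nonneg _
    have hx1 : (ρ * R) ^ 2 < 1 := by
      have h0 : 0 ≤ ρ * R := mul_nonneg hρ hR0.le
      nlinarith
    filter_upwards [hup, pow_exp (e := 2 - d) hx0 hx1 (c := 1 / (2 * c)) (by positivity),
      eventually_ge_atTop 1] with n hn hn2 hn1
    have hn0 : (0 : ℝ) < n := by exact_mod_cast hn1
    have e1 : q (2 * n) * R ^ (2 * n) ≤ 2 * (c * (n : ℝ) ^ (-d) * ρ ^ (2 * n)) * R ^ (2 * n) :=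
      mul_le_mul_of_nonneg_right hn (by positivity)
    refine e1.trans ?_
    have e2 : (n : ℝ) ^ (2 - d) = (n : ℝ) ^ (-d) * (n : ℝ) ^ (2 : ℝ) := by
      rw [← Real.rpow_add hn0]
      congr 1
      ring
    have e3 : (n : ℝ) ^ (-2 : ℝ) * (n : ℝ) ^ (2 : ℝ) = 1 := by
      rw [← Real.rpow_add hn0]
      norm_num
    have e4 : ρ ^ (2 * n) * R ^ (2 * n) = ((ρ * R) ^ 2) ^ n := by
      rw [← mul_pow, pow_mul]
    have e5 : 2 * (c * (n : ℝ) ^ (-d) * ρ ^ (2 * n)) * R ^ (2 * n) =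
        2 * c * (n : ℝ) ^ (-d) * ((ρ * R) ^ 2) ^ n := by
      rw [← e4]; ring
    rw [e5, one_mul]
    have hp : (0 : ℝ) < (n : ℝ) ^ (2 : ℝ) := by positivity
    refine le_of_mul_le_mul_right ?_ hp
    rw [e3]
    calc 2 * c * (n : ℝ) ^ (-d) * ((ρ * R) ^ 2) ^ n * (n : ℝ) ^ (2 : ℝ) =
        2 * c * ((n : ℝ) ^ (2 - d) * ((ρ * R) ^ 2) ^ n) := by rw [e2]; ring
      _ ≤ 2 * c * (1 / (2 * c)) := mul_le_mul_of_nonneg_left hn2 (by positivity)
      _ = 1 := by field_simp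
  · -- ρ R = 1
    have e4 : ∀ n : ℕ, ρ ^ (2 * n) * R ^ (2 * n) = 1 := by
      intro n
      rw [← mul_pow, hρR, one_pow]
    rcases le_or_gt d (3 / 2) with hd | hd
    · have hev : ∀ᶠ n : ℕ in atTop, c / 2 * (n : ℝ) ^ (-d) ≤ q (2 * n) * R ^ (2 * n) := by
        filter_upwards [hlow] with n hn
        have e1 := mul_le_mul_of_nonneg_right hn (show (0 : ℝ) ≤ R ^ (2 * n) by positivity)
        have e2 : 1 / 2 * (c * (n : ℝ) ^ (-d) * ρ ^ (2 * n)) * R ^ (2 * n) =
            c / 2 * (n : ℝ) ^ (-d) * (ρ ^ (2 * n) * R ^ (2 * n)) := by ring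
        rw [e2, e4, mul_one] at e1
        exact e1
      obtain ⟨c', hc', z₀, hz₀, hz₀R, hb⟩ := hL q R (c / 2) d hq hR0 (by positivity) hd hev hsum
      obtain ⟨u₁, hu₁, hu₁', hZu₁⟩ := hex z₀ hz₀ hz₀R
      obtain ⟨M, hM⟩ : ∃ M : ℝ, M = (C₁ / c') ^ 2 / c₂ := ⟨_, rfl⟩
      have key2 : ∀ h : ℝ, 0 < h → h ≤ 1 - max u₀ u₁ → Real.log (1 / h) ≤ M := by
        intro h h0 h1
        obtain ⟨u, hu⟩ : ∃ u, u = 1 - h := ⟨_, rfl⟩
        have hu1 : u₀ ≤ u := by
          have := le_max_left u₀ u₁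
          rw [hu]; linarith
        have hu2 : u₁ ≤ u := by
          have := le_max_right u₀ u₁
          rw [hu]; linarith
        have hu3 : u < 1 := by rw [hu]; linarith
        have hu4 : 0 < u := hu₁.trans_le hu2
        have e3 : 1 - u = h := by rw [hu]; ring
        obtain ⟨z', g1, g2, g3⟩ := hb (Z u) (by
          rw [← hZu₁]
          exact hmono _ _ hu₁.le hu2 hu3.le) (hlt u hu4.le hu3)
        have hZpos : 0 < Z u := by
          have := hmono u₁ u hu₁.le hu2 hu3.le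
          rw [hZu₁] at this
          linarith
        obtain ⟨u', k1, k2, k3⟩ := hex z' (hZpos.trans g1) g2
        rw [(hS u hu4 hu3).2, ← k3, (hS u' k1 k2).2] at g3
        have g4 := (hW u' k1.le k2.le).1
        have g5 := (hW u hu4.le hu3.le).2
        have g6 : 0 ≤ c₁ * (1 - u') := mul_nonneg hc₁.le (by linarith)
        have g7 := (hZ u hu1 hu3).1
        rw [← hR] at g7
        rw [e3] at g5 g7
        have g8 : c' * Real.sqrt (R - Z u) ≤ C₁ * h := by linarith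
        have hRZ : 0 ≤ R - Z u := by
          have := hlt u hu4.le hu3
          linarith
        have g9 : c' ^ 2 * (R - Z u) ≤ C₁ ^ 2 * h ^ 2 := by
          have q1 : 0 ≤ c' * Real.sqrt (R - Z u) := by positivity
          have q2 := mul_self_le_mul_self q1 g8
          have q3 := Real.mul_self_sqrt hRZ
          calc c' ^ 2 * (R - Z u) = c' ^ 2 * (Real.sqrt (R - Z u) * Real.sqrt (R - Z u)) := by
                rw [q3]
            _ = c' * Real.sqrt (R - Z u) * (c' * Real.sqrt (R - Z u)) := by ring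
            _ ≤ C₁ * h * (C₁ * h) := q2
            _ = _ := by ring
        have g10 : (c' ^ 2 * c₂ * Real.log (1 / h)) * h ^ 2 ≤ C₁ ^ 2 * h ^ 2 := by
          refine le_trans ?_ g9
          calc (c' ^ 2 * c₂ * Real.log (1 / h)) * h ^ 2 =
              c' ^ 2 * (c₂ * (h ^ 2 * Real.log (1 / h))) := by ring
            _ ≤ c' ^ 2 * (R - Z u) := mul_le_mul_of_nonneg_left g7 (by positivity)
        have g11 := le_of_mul_le_mul_right g10 (by positivity)
        rw [hM, div_pow, div_div, le_div_iff₀ (by positivity)]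
        linarith
      have hm : 0 < 1 - max u₀ u₁ := by
        have := max_lt hu₀' hu₁'
        linarith
      have e11 := key2 (min (1 - max u₀ u₁) (Real.exp (-(M + 1)))) (lt_min hm (Real.exp_pos _))
        (min_le_left _ _)
      have e12 : M + 1 ≤ Real.log (1 / min (1 - max u₀ u₁) (Real.exp (-(M + 1)))) := by
        rw [one_div, Real.log_inv]
        have h3 : Real.log (min (1 - max u₀ u₁) (Real.exp (-(M + 1)))) ≤ -(M + 1) := by
          have := Real.log_le_log (lt_min hm (Real.exp_pos _))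
            (min_le_right (1 - max u₀ u₁) (Real.exp (-(M + 1))))
          rwa [Real.log_exp] at this
        linarith
      linarith
    · refine caseA (2 * c) d (by positivity) hd ?_
      filter_upwards [hup] with n hn
      have e1 := mul_le_mul_of_nonneg_right hn (show (0 : ℝ) ≤ R ^ (2 * n) by positivity)
      have e2 : 2 * (c * (n : ℝ) ^ (-d) * ρ ^ (2 * n)) * R ^ (2 * n) =
          2 * c * (n : ℝ) ^ (-d) * (ρ ^ (2 * n) * R ^ (2 * n)) := by ring
      rw [e2, e4, mul_one] at e1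
      exact e1
  · -- ρ R > 1
    have hρ0 : 0 < ρ := by
      by_contra hcon
      push Not at hcon
      have : ρ * R ≤ 0 := mul_nonpos_of_nonpos_of_nonneg hcon hR0.le
      linarith
    obtain ⟨z, hz1, hz2⟩ : ∃ z, 1 / ρ < z ∧ z < R :=
      exists_between (by rw [div_lt_iff₀ hρ0]; linarith)
    have hz0 : 0 < z := lt_trans (by positivity) hz1
    have hρz : 1 < ρ * z := by
      rw [div_lt_iff₀ hρ0] at hz1
      linarith
    have hy : 1 < (ρ * z) ^ 2 := by nlinarith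
    have hy0 : 0 < (ρ * z) ^ 2 := by positivity
    have hs := (hsum z hz0.le hz2).tendsto_atTop_zero
    have hs2 : Tendsto (fun n : ℕ => q (2 * n) * z ^ (2 * n)) atTop (𝓝 0) :=
      hs.comp (tendsto_id.const_mul_atTop' (by norm_num))
    have hlt1 := hs2.eventually_lt_const (show (0 : ℝ) < 1 by norm_num)
    have hp := pow_exp (x := ((ρ * z) ^ 2)⁻¹) (e := d) (c := c / 2) (by positivity)
      (inv_lt_one_of_one_lt₀ hy) (by positivity)
    obtain ⟨n, hn1, hn2, hn3, hn4⟩ := (hlt1.and (hp.and (hlow.and (eventually_ge_atTop 1)))).exists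
    have hn0 : (0 : ℝ) < n := by exact_mod_cast hn4
    have e1 := mul_le_mul_of_nonneg_right hn3 (show (0 : ℝ) ≤ z ^ (2 * n) by positivity)
    have e2 : 1 / 2 * (c * (n : ℝ) ^ (-d) * ρ ^ (2 * n)) * z ^ (2 * n) =
        c / 2 * (n : ℝ) ^ (-d) * ((ρ * z) ^ 2) ^ n := by
      rw [← pow_mul, mul_pow]; ring
    rw [e2] at e1
    have e5 : (0 : ℝ) < (n : ℝ) ^ (-d) * ((ρ * z) ^ 2) ^ n := by positivity
    have e6 : (n : ℝ) ^ d * (((ρ * z) ^ 2)⁻¹) ^ n * ((n : ℝ) ^ (-d) * ((ρ * z) ^ 2) ^ n) = 1 := by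
      have e7 : (n : ℝ) ^ d * (n : ℝ) ^ (-d) = 1 := by
        rw [← Real.rpow_add hn0, add_neg_cancel, Real.rpow_zero]
      have e8 : (((ρ * z) ^ 2)⁻¹) ^ n * ((ρ * z) ^ 2) ^ n = 1 := by
        rw [← mul_pow, inv_mul_cancel₀ hy0.ne', one_pow]
      calc (n : ℝ) ^ d * (((ρ * z) ^ 2)⁻¹) ^ n * ((n : ℝ) ^ (-d) * ((ρ * z) ^ 2) ^ n) =
          ((n : ℝ) ^ d * (n : ℝ) ^ (-d)) * ((((ρ * z) ^ 2)⁻¹) ^ n * ((ρ * z) ^ 2) ^ n) := by ring
        _ = 1 := by rw [e7, e8, one_mul]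
    have e9 := mul_le_mul_of_nonneg_right hn2 e5.le
    rw [e6] at e9
    linarith

end Pool.Agent.N373.FG
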